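import Mathlib
import Pool.Agent.H504R3.SDefs

/-!
# Types, dividing and simplicity in the continuous logic of tracial von Neumann algebras

Formulas with parameters, types, elementary embeddings, indiscernible sequences, dividing, and
simplicity of the theory of a tracial von Neumann algebra.
-/

set_option autoImplicit false

namespace Pool.Agent.U108.NS

open Pool.Agent.H504R3.S

/-- The value in `M` of the formula `φ(x, b)`: the first `n` variables of `φ` have the values `x`,
the other `m` variables are replaced by the parameters `b`. -/
noncomputable def pval (M : Str) {n m : ℕ} (φ : Fm (n + m)) (x : Fin n → M.carrier)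
    (b : Fin m → M.carrier) : ℝ := φ.val M (Fin.append x b)

/-- The data of a type in `n` variables with parameters indexed by `β`: a value `p m φ b` for
each formula `φ(x, b)` with `m` parameters `b`. -/
abbrev Ty (n : ℕ) (β : Type) : Type := (m : ℕ) → Fm (n + m) → (Fin m → β) → ℝ

/-- The union over `i` of the types `p(x, b i)` is consistent, where the `n` variables `x` range over
the ball of radius `r` of `M` and `b i` replaces the parameters: for any finite list of pairs of
an index `i` and a formula `φ(x, c)`, and any `ε > 0`, there is `x` for which the values of the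
formulas `φ(x, b i c)` differ by less than `ε` from the values given by `p`. -/
def Consistent (M : Str) (n r : ℕ) {β ι : Type} (p : Ty n β) (b : ι → β → M.carrier) : Prop :=
  ∀ (L : List (ι × (Σ m : ℕ, Fm (n + m) × (Fin m → β)))) (ε : ℝ), 0 < ε →
    ∃ x : Fin n → M.Ball r, ∀ q ∈ L,
      |pval M q.2.2.1 (fun i => (x i).1) (fun j => b q.1 (q.2.2.2 j)) -
        p q.2.1 q.2.2.1 q.2.2.2| < ε

/-- `p` is a (complete) type over the set `B` of elements of `M`, in `n` variables which range over
the ball of radius `r`. -/
def IsType (M : Str) (B : Set M.carrier) (n r : ℕ) (p : Ty n B) : Prop :=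
  Consistent M n r p (fun (_ : Unit) (c : B) => c.1)

/-- `j` is an elementary embedding of `M` into `N`. -/
def IsElementary (M N : Str) (j : M.carrier → N.carrier) : Prop :=
  ∀ (n : ℕ) (φ : Fm n) (x : Fin n → M.carrier), φ.val N (fun i => j (x i)) = φ.val M x

/-- The sequence `b 0, b 1, …` of families of elements of `N` (indexed by `β`) is indiscernible over
`A`: the values of formulas with parameters from `A` at finitely many elements `b k c` do not change
when the indices `k` are changed by a strictly increasing map. -/
def Indiscernible (N : Str) (A : Set N.carrier) {β : Type} (b : ℕ → β → N.carrier) : Prop :=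
  ∀ f : ℕ → ℕ, StrictMono f → ∀ (m k : ℕ) (φ : Fm (m + k)) (c : Fin m → ℕ × β) (a : Fin k → A),
    pval N φ (fun i => b (c i).1 (c i).2) (fun j => (a j).1) =
      pval N φ (fun i => b (f (c i).1) (c i).2) (fun j => (a j).1)

/-- The type `p(x, B)` over `B ⊆ M` divides over `A`: in an elementary extension `N` of `M` there is a
sequence of families `b k`, indexed by `B`, with `b 0` the inclusion of `B`, which is indiscernible
over `A` and for which the union of the types `p(x, b k)` is inconsistent. -/
def Divides (M : Str) (B A : Set M.carrier) (n r : ℕ) (p : Ty n B) : Prop :=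
  ∃ (N : Str) (j : M.carrier → N.carrier) (b : ℕ → B → N.carrier),
    N.IsTVN ∧ IsElementary M N j ∧ (∀ c : B, b 0 c = j c.1) ∧ Indiscernible N (j '' A) b ∧
      ¬ Consistent N n r p b

/-- The set `A` is separable for the 2-norm. -/
def IsSepSet (M : Str) (A : Set M.carrier) : Prop :=
  ∃ S : Set M.carrier, S ⊆ A ∧ S.Countable ∧
    ∀ x ∈ A, ∀ ε : ℝ, 0 < ε → ∃ y ∈ S, M.norm2 (M.sub x y) < ε

/-- The theory of `R` is simple: every type `p` over a set `B` in a model `M` of the theory does not
divide over some separable `A ⊆ B`. -/
def IsSimple (R : Str) : Prop :=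
  ∀ M : Str, M.IsTVN → M.ElemEq R → ∀ (B : Set M.carrier) (n r : ℕ) (p : Ty n B),
    IsType M B n r p → ∃ A : Set M.carrier, A ⊆ B ∧ IsSepSet M A ∧ ¬ Divides M B A n r p

end Pool.Agent.U108.NS
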