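import Mathlib
import Pool.Agent.Helper436.SM.Pauli
import Pool.Agent.R970.SI.Unif
import Pool.Agent.Helper467.FP.P_E_contr
import Pool.Agent.H357R4.FP_NRM

/-!
Systems of Pauli unitaries over arbitrary index sets.
-/

set_option autoImplicit false

open scoped InnerProductSpace
open Filter Topology

namespace Pool.Agent.U108.NS

open Pool.Agent.H504R3 (TVN)
open Pool.Agent.H504R3.S
open Pool.Agent.R970.SI
open Pool.Agent.Helper436.SM (sg sg_add sg_mul_self norm_sg star_sg)

/-- Pauli strings over an index set -/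
abbrev PV (I : Type) : Type := I →₀ (ZMod 2 × ZMod 2)

variable {I J K : Type}

/-- the bilinear form -/
noncomputable def bf (v w : PV I) : ZMod 2 := v.sum fun i a => a.2 * (w i).1

theorem bf_add_left (u v w : PV I) : bf (u + v) w = bf u w + bf v w := by
  classical
  unfold bf
  refine Finsupp.sum_add_index' (fun i => ?_) (fun i a b => ?_)
  · simp
  · rw [Prod.snd_add, add_mul]

theorem bf_add_right (u v w : PV I) : bf u (v + w) = bf u v + bf u w := by
  unfold bf Finsupp.sum
  rw [← Finset.sum_add_distrib]
  refine Finset.sum_congr rfl (fun i _ => ?_)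
  show (u i).2 * ((v + w) i).1 = (u i).2 * (v i).1 + (u i).2 * (w i).1
  rw [Finsupp.add_apply, Prod.fst_add, mul_add]

theorem bf_zero_left (w : PV I) : bf 0 w = 0 := by
  unfold bf
  exact Finsupp.sum_zero_index

theorem bf_zero_right (w : PV I) : bf w 0 = 0 := by
  unfold bf Finsupp.sum
  refine Finset.sum_eq_zero (fun i _ => ?_)
  simp

theorem pv_add_self (v : PV I) : v + v = 0 := by
  ext i
  · simp [CharTwo.add_self_eq_zero]
  · simp [CharTwo.add_self_eq_zero]

theorem pv_cancel (k v : PV I) : k + v + v = k := by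
  rw [add_assoc, pv_add_self, add_zero]

theorem pv_eq {v w : PV I} (h : v + w = 0) : v = w := by
  have := pv_cancel v w
  rw [h, zero_add] at this
  exact this.symm

theorem sg_zero : sg 0 = 1 := by simp [sg]

/-- the push forward of strings -/
noncomputable def mp (e : K → I) (v : PV K) : PV I := v.mapDomain e

theorem mp_zero (e : K → I) : mp e 0 = 0 := Finsupp.mapDomain_zero

theorem mp_add (e : K → I) (v w : PV K) : mp e (v + w) = mp e v + mp e w :=
  Finsupp.mapDomain_add

theorem mp_inj {e : K → I} (he : Function.Injective e) {v w : PV K} :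
    mp e v = mp e w ↔ v = w := (Finsupp.mapDomain_injective he).eq_iff

theorem mp_single (e : K → I) (k : K) (a : ZMod 2 × ZMod 2) :
    mp e (Finsupp.single k a) = Finsupp.single (e k) a := Finsupp.mapDomain_single

theorem mp_comp (e : K → I) (f : J → K) (v : PV J) : mp e (mp f v) = mp (e ∘ f) v :=
  (Finsupp.mapDomain_comp).symm

theorem bf_mp {e : K → I} (he : Function.Injective e) (v w : PV K) :
    bf (mp e v) (mp e w) = bf v w := by
  unfold bf mp
  rw [Finsupp.sum_mapDomain_index_inj he]
  refine Finsupp.sum_congr fun i _ => ?_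
  rw [Finsupp.mapDomain_apply he]

/-- a dense system of Pauli unitaries -/
structure Sys {I : Type} (T : TVN) (W : PV I → T.E) : Prop where
  zero : W 0 = 1
  mul : ∀ v w, W v * W w = sg (bf v w) • W (v + w)
  star : ∀ v, star (W v) = sg (bf v v) • W v
  trace : ∀ v, v ≠ 0 → T.τ (W v) = 0
  dense : ∀ (y : T.E) (ε : ℝ), 0 < ε →
    ∃ z ∈ Submodule.span ℂ (Set.range W), T.norm2 (y - z) < ε

section coef

/-- the element with given coefficients -/
noncomputable def lc (T : TVN) (W : PV I → T.E) (e : K → I) : (PV K →₀ ℂ) →ₗ[ℂ] T.E :=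
  Finsupp.linearCombination ℂ (fun v => W (mp e v))

theorem lc_single (T : TVN) (W : PV I → T.E) (e : K → I) (v : PV K) (c : ℂ) :
    lc T W e (Finsupp.single v c) = c • W (mp e v) := Finsupp.linearCombination_single _ _ _

/-- the coefficients of the value of a term -/
noncomputable def cf : Tm (PV K) → (PV K →₀ ℂ)
  | .var v => Finsupp.single v 1
  | .one => Finsupp.single 0 1
  | .add s t => cf s + cf t
  | .mul s t => (cf s).sum fun v x => (cf t).sum fun w y =>
      Finsupp.single (v + w) (x * y * sg (bf v w))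
  | .adj s => (cf s).sum fun v x => Finsupp.single v (star x * sg (bf v v))
  | .scal c s => c • cf s

variable {T : TVN} {W : PV I → T.E}

theorem tval_cf (h : Sys T W) {e : K → I} (he : Function.Injective e) :
    ∀ t : Tm (PV K), tval T (fun v => W (mp e v)) t = lc T W e (cf t)
  | .var v => by
    show W (mp e v) = lc T W e (Finsupp.single v 1)
    rw [lc_single, one_smul]
  | .one => by
    show 1 = lc T W e (Finsupp.single 0 1)
    rw [lc_single, one_smul, mp_zero, h.zero]
  | .add s t => by
    show tval T _ s + tval T _ t = lc T W e (cf s + cf t)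
    rw [tval_cf h he s, tval_cf h he t, map_add]
  | .mul s t => by
    show tval T _ s * tval T _ t = lc T W e ((cf s).sum fun v x => (cf t).sum fun w y =>
      Finsupp.single (v + w) (x * y * sg (bf v w)))
    rw [tval_cf h he s, tval_cf h he t, map_finsuppSum]
    have e1 : lc T W e (cf s) = (cf s).sum fun v x => x • W (mp e v) :=
      Finsupp.linearCombination_apply _ _
    have e2 : lc T W e (cf t) = (cf t).sum fun v x => x • W (mp e v) :=
      Finsupp.linearCombination_apply _ _
    rw [e1, e2, Finsupp.sum_mul]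
    refine Finsupp.sum_congr fun v _ => ?_
    rw [Finsupp.mul_sum, map_finsuppSum]
    refine Finsupp.sum_congr fun w _ => ?_
    rw [lc_single, smul_mul_smul_comm, h.mul, smul_smul, mp_add, bf_mp he]
  | .adj s => by
    show star (tval T _ s) = lc T W e ((cf s).sum fun v x => Finsupp.single v
      (star x * sg (bf v v)))
    rw [tval_cf h he s, map_finsuppSum]
    have e1 : lc T W e (cf s) = (cf s).sum fun v x => x • W (mp e v) :=
      Finsupp.linearCombination_apply _ _
    rw [e1]
    unfold Finsupp.sum
    rw [star_sum]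
    refine Finset.sum_congr rfl fun v _ => ?_
    beta_reduce
    rw [lc_single, star_smul, h.star, smul_smul, bf_mp he]
  | .scal c s => by
    show c • tval T _ s = lc T W e (c • cf s)
    rw [tval_cf h he s, map_smul]

theorem tau_lc (h : Sys T W) {e : K → I} (he : Function.Injective e) (a : PV K →₀ ℂ) :
    T.τ (lc T W e a) = a 0 := by
  have e1 : lc T W e a = a.sum fun v x => x • W (mp e v) :=
    Finsupp.linearCombination_apply _ _
  rw [e1, map_finsuppSum]
  unfold Finsupp.sum
  rw [Finset.sum_eq_single 0]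
  · beta_reduce
    rw [map_smul, mp_zero, h.zero, T.map_one, smul_eq_mul, mul_one]
  · intro v _ hv
    beta_reduce
    rw [map_smul, h.trace, smul_zero]
    intro h0
    rw [← mp_zero e, mp_inj he] at h0
    exact hv h0
  · intro h0
    beta_reduce
    rw [Finsupp.notMem_support_iff.1 h0, zero_smul, map_zero]

/-- traces of terms agree in all systems -/
theorem tau_eq (h : Sys T W) {e : K → I} (he : Function.Injective e) {I' : Type} {T' : TVN}
    {W' : PV I' → T'.E} (h' : Sys T' W') {e' : K → I'} (he' : Function.Injective e')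
    (t : Tm (PV K)) :
    T.τ (tval T (fun v => W (mp e v)) t) = T'.τ (tval T' (fun v => W' (mp e' v)) t) := by
  rw [tval_cf h he, tval_cf h' he', tau_lc h he, tau_lc h' he']

theorem n2_eq (h : Sys T W) {e : K → I} (he : Function.Injective e) {I' : Type} {T' : TVN}
    {W' : PV I' → T'.E} (h' : Sys T' W') {e' : K → I'} (he' : Function.Injective e')
    (t : Tm (PV K)) :
    T.norm2 (tval T (fun v => W (mp e v)) t) =
      T'.norm2 (tval T' (fun v => W' (mp e' v)) t) := by
  have := tau_eq h he h' he' (.mul (.adj t) t)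
  unfold TVN.norm2
  congr 2

/-- powers of terms -/
def pw {V : Type} (t : Tm V) : ℕ → Tm V
  | 0 => .one
  | n + 1 => .mul (pw t n) t

theorem tval_pw (T : TVN) {V : Type} (x : V → T.E) (t : Tm V) :
    ∀ n, tval T x (pw t n) = (tval T x t) ^ n
  | 0 => (pow_zero _).symm
  | n + 1 => by
    show tval T x (pw t n) * tval T x t = _
    rw [tval_pw T x t n, pow_succ]

theorem fts (T : TVN) : Pool.Agent.H923R2.FP.FTS T.τ where
  one := T.map_one
  comm := T.tracial
  str := T.trAlg.conj
  nonneg := T.trAlg.re_nonneg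
  faith x hx := T.trAlg.faithful x (Complex.ext hx (T.trAlg.im_zero x))
  bound x := (tau_le T x).trans (norm2_le_op T x)

theorem op_eq (h : Sys T W) {e : K → I} (he : Function.Injective e) {I' : Type} {T' : TVN}
    {W' : PV I' → T'.E} (h' : Sys T' W') {e' : K → I'} (he' : Function.Injective e')
    (t : Tm (PV K)) :
    T.opNorm (tval T (fun v => W (mp e v)) t) =
      T'.opNorm (tval T' (fun v => W' (mp e' v)) t) := by
  refine Pool.Agent.H923R2.FP.T_NRM.t_NRM T.E T'.E T.τ T'.τ (fts T) (fts T') _ _ fun n => ?_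
  have := tau_eq h he h' he' (pw (.mul (.adj t) t) n)
  rw [tval_pw, tval_pw] at this
  exact this

end coef

section dense

variable {T : TVN} {W : PV I → T.E}

/-- the trace of a product of two of the unitaries -/
theorem tau_WW (h : Sys T W) (v w : PV I) :
    T.τ (star (W v) * W w) = open Classical in if v = w then 1 else 0 := by
  classical
  rw [h.star, smul_mul_assoc, h.mul, smul_smul, map_smul]
  split_ifs with hvw
  · subst hvw
    rw [pv_add_self, h.zero, T.map_one, smul_eq_mul, mul_one, sg_mul_self]
  · rw [h.trace _ (fun h0 => hvw (pv_eq h0)), smul_zero]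

theorem n2_W (h : Sys T W) (v : PV I) : T.norm2 (W v) = 1 := by
  unfold TVN.norm2
  rw [tau_WW h, if_pos rfl]
  simp

open Classical in
/-- strings supported in a finite set -/
noncomputable def VF (F : Finset I) : Finset (PV I) := F.finsupp fun _ => Finset.univ

theorem mem_VF (F : Finset I) (v : PV I) : v ∈ VF F ↔ v.support ⊆ F := by
  classical
  unfold VF
  rw [Finset.mem_finsupp_iff]
  exact ⟨fun h => h.1, fun h => ⟨h, fun i _ => Finset.mem_univ _⟩⟩

theorem VF_add {F : Finset I} {v w : PV I} (hv : v ∈ VF F) (hw : w ∈ VF F) : v + w ∈ VF F := by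
  classical
  rw [mem_VF] at hv hw ⊢
  exact Finsupp.support_add.trans (Finset.union_subset hv hw)

theorem VF_zero (F : Finset I) : (0 : PV I) ∈ VF F := by
  rw [mem_VF]
  simp

/-- the algebra of a finite set -/
noncomputable def SF (h : Sys T W) (F : Finset I) : StarSubalgebra ℂ T.E where
  carrier := Submodule.span ℂ (W '' (VF F : Set (PV I)))
  mul_mem' := by
    intro x y hx hy
    have hx' : x ∈ Submodule.span ℂ (W '' (VF F : Set (PV I))) := hx
    have hy' : y ∈ Submodule.span ℂ (W '' (VF F : Set (PV I))) := hy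
    show x * y ∈ Submodule.span ℂ (W '' (VF F : Set (PV I)))
    clear hx hy
    induction hx' using Submodule.span_induction with
    | mem x hx =>
      obtain ⟨v, hv, rfl⟩ := hx
      induction hy' using Submodule.span_induction with
      | mem y hy =>
        obtain ⟨w, hw, rfl⟩ := hy
        rw [h.mul]
        exact Submodule.smul_mem _ _ (Submodule.subset_span ⟨_, VF_add hv hw, rfl⟩)
      | zero => rw [mul_zero]; exact zero_mem _
      | add u v _ _ h1 h2 => rw [mul_add]; exact add_mem h1 h2
      | smul c u _ h1 => rw [mul_smul_comm]; exact Submodule.smul_mem _ _ h1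
    | zero => rw [zero_mul]; exact zero_mem _
    | add u v _ _ h1 h2 => rw [add_mul]; exact add_mem h1 h2
    | smul c u _ h1 => rw [smul_mul_assoc]; exact Submodule.smul_mem _ _ h1
  add_mem' := fun {x y} hx hy => Submodule.add_mem (Submodule.span ℂ (W '' (VF F : Set (PV I))))
    hx hy
  algebraMap_mem' := fun c => by
    show algebraMap ℂ T.E c ∈ Submodule.span ℂ (W '' (VF F : Set (PV I)))
    rw [Algebra.algebraMap_eq_smul_one, ← h.zero]
    exact Submodule.smul_mem _ _ (Submodule.subset_span ⟨_, VF_zero F, rfl⟩)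
  star_mem' := by
    intro x hx
    have hx' : x ∈ Submodule.span ℂ (W '' (VF F : Set (PV I))) := hx
    show star x ∈ Submodule.span ℂ (W '' (VF F : Set (PV I)))
    clear hx
    induction hx' using Submodule.span_induction with
    | mem x hx =>
      obtain ⟨v, hv, rfl⟩ := hx
      rw [h.star]
      exact Submodule.smul_mem _ _ (Submodule.subset_span ⟨_, hv, rfl⟩)
    | zero => rw [star_zero]; exact zero_mem _
    | add u v _ _ h1 h2 => rw [star_add]; exact add_mem h1 h2
    | smul c u _ h1 => rw [star_smul]; exact Submodule.smul_mem _ _ h1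

theorem mem_SF (h : Sys T W) (F : Finset I) (x : T.E) :
    x ∈ SF h F ↔ x ∈ Submodule.span ℂ (W '' (VF F : Set (PV I))) := Iff.rfl

/-- the projection -/
noncomputable def PF (T : TVN) (W : PV I → T.E) (F : Finset I) (x : T.E) : T.E :=
  ∑ v ∈ VF F, T.τ (star (W v) * x) • W v

theorem PF_mem (h : Sys T W) (F : Finset I) (x : T.E) : PF T W F x ∈ SF h F :=
  Submodule.sum_mem _ fun v hv => Submodule.smul_mem _ _ (Submodule.subset_span ⟨v, hv, rfl⟩)

theorem PF_of_mem (h : Sys T W) (F : Finset I) {x : T.E} (hx : x ∈ SF h F) :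
    PF T W F x = x := by
  classical
  rw [mem_SF] at hx
  unfold PF
  induction hx using Submodule.span_induction with
  | mem x hx =>
    obtain ⟨w, hw, rfl⟩ := hx
    rw [Finset.sum_eq_single w]
    · rw [tau_WW h, if_pos rfl, one_smul]
    · intro v _ hv
      rw [tau_WW h, if_neg hv, zero_smul]
    · intro h0
      exact absurd hw h0
  | zero => simp
  | add u v _ _ h1 h2 =>
    rw [← h1, ← h2] 
    conv_rhs => rw [← Finset.sum_add_distrib]
    refine Finset.sum_congr rfl fun w _ => ?_
    rw [h1, h2, mul_add, map_add, add_smul]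
  | smul c u _ h1 =>
    conv_rhs => rw [← h1, Finset.smul_sum]
    refine Finset.sum_congr rfl fun w _ => ?_
    rw [mul_smul_comm, map_smul, smul_smul, smul_eq_mul]

theorem SF_isW (h : Sys T W) (F : Finset I) : Pool.Agent.H467F.IsW T.τ (SF h F) := by
  intro x hx
  have key : ∀ ε : ℝ, 0 < ε → T.norm2 (x - PF T W F x) ≤ (1 + (VF F).card) * ε := by
    intro ε hε
    obtain ⟨y, hy, hxy⟩ := hx ε hε
    have hxy' : T.norm2 (x - y) < ε := hxy
    have h1 : T.norm2 (y - PF T W F x) ≤ (VF F).card * ε := by
      have e : y - PF T W F x = ∑ v ∈ VF F, T.τ (star (W v) * (y - x)) • W v := by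
        conv_lhs => rw [← PF_of_mem h F hy]
        unfold PF
        rw [← Finset.sum_sub_distrib]
        refine Finset.sum_congr rfl fun v _ => ?_
        rw [mul_sub, map_sub, sub_smul]
      rw [e]
      have h2 : ∀ S : Finset (PV I), T.norm2 (∑ v ∈ S, T.τ (star (W v) * (y - x)) • W v) ≤
          S.card * ε := by
        classical
        intro S
        induction S using Finset.induction_on with
        | empty => rw [Finset.sum_empty, norm2_zero]; simp
        | insert v S hv ih =>
          rw [Finset.sum_insert hv, Finset.card_insert_of_notMem hv]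
          refine (norm2_add T _ _).trans ?_
          rw [norm2_smul, n2_W h, mul_one]
          have h3 : ‖T.τ (star (W v) * (y - x))‖ ≤ T.norm2 (W v) * T.norm2 (y - x) :=
            T.trAlg.cauchy _ _
          rw [n2_W h, one_mul, norm2_sub_comm] at h3
          push_cast
          linarith
      exact h2 _
    refine (norm2_tri T x y _).trans ?_
    linarith
  have h0 : T.norm2 (x - PF T W F x) ≤ 0 := by
    refine le_of_forall_pos_le_add fun δ hδ => ?_
    have h2 := key (δ / (1 + (VF F).card)) (by positivity)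
    rw [mul_div_cancel₀ _ (by positivity)] at h2
    linarith
  have h1 : x - PF T W F x = 0 := T.tw.eq_zero (le_antisymm h0 (norm2_nonneg T _))
  rw [sub_eq_zero.1 h1]
  exact PF_mem h F x

/-- bounded approximation -/
theorem ball_dense (h : Sys T W) (y : T.E) (ε : ℝ) (hε : 0 < ε) :
    ∃ (F : Finset I), ∃ z ∈ SF h F, T.opNorm z ≤ T.opNorm y ∧ T.norm2 (y - z) < ε := by
  classical
  obtain ⟨z0, hz0, h1⟩ := h.dense y ε hε
  obtain ⟨F, hF⟩ : ∃ F : Finset I, z0 ∈ SF h F := by
    clear h1
    induction hz0 using Submodule.span_induction with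
    | mem x hx =>
      obtain ⟨v, rfl⟩ := hx
      refine ⟨v.support, Submodule.subset_span ⟨v, ?_, rfl⟩⟩
      exact (mem_VF _ _).2 subset_rfl
    | zero => exact ⟨∅, zero_mem _⟩
    | add u v _ _ h1 h2 =>
      obtain ⟨F, hF⟩ := h1
      obtain ⟨G, hG⟩ := h2
      have mono : ∀ {F G : Finset I}, F ⊆ G → ∀ x, x ∈ SF h F → x ∈ SF h G := by
        intro F G hFG x hx
        rw [mem_SF] at hx ⊢
        refine Submodule.span_mono ?_ hx
        refine Set.image_mono fun v hv => ?_
        exact (mem_VF _ _).2 (((mem_VF _ _).1 hv).trans hFG)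
      exact ⟨F ∪ G, add_mem (mono Finset.subset_union_left _ hF)
        (mono Finset.subset_union_right _ hG)⟩
    | smul c u _ h1 =>
      obtain ⟨F, hF⟩ := h1
      exact ⟨F, Submodule.smul_mem _ _ hF⟩
  have hW := SF_isW h F
  have hE := Pool.Agent.H467F.ep T.tw (SF h F) hW
  refine ⟨F, Pool.Agent.H467F.E T.τ (SF h F) y, hE.mem y,
    Pool.Agent.H467F.E_contr T.tw (SF h F) hW y, lt_of_le_of_lt ?_ h1⟩
  have h2 := hE.pyth (y - z0)
  rw [hE.sub, hE.of_mem z0 hF] at h2
  have e : y - z0 - (Pool.Agent.H467F.E T.τ (SF h F) y - z0) =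
      y - Pool.Agent.H467F.E T.τ (SF h F) y := by abel
  rw [e] at h2
  have h3 : T.norm2 (y - Pool.Agent.H467F.E T.τ (SF h F) y) ^ 2 ≤ T.norm2 (y - z0) ^ 2 := by
    have h4 : T.norm2 (y - z0) ^ 2 = Pool.Agent.H467F.n2 T.τ (y - z0) ^ 2 := rfl
    rw [h4, h2]
    have h5 : T.norm2 (y - Pool.Agent.H467F.E T.τ (SF h F) y) ^ 2 =
      Pool.Agent.H467F.n2 T.τ (y - Pool.Agent.H467F.E T.τ (SF h F) y) ^ 2 := rfl
    rw [h5]
    have := sq_nonneg (Pool.Agent.H467F.n2 T.τ (Pool.Agent.H467F.E T.τ (SF h F) y - z0))
    linarith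
  exact (pow_le_pow_iff_left₀ (norm2_nonneg T _) (norm2_nonneg T _) two_ne_zero).1 h3

end dense

end Pool.Agent.U108.NS
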