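import Mathlib
import Pool.Agent.U108.NS.Pau
import Pool.Agent.R283.GV.TV

/-!
The value of a formula at Pauli elements does not depend on the positions of the sites.
-/

set_option autoImplicit false

namespace Pool.Agent.U108.NS

open Pool.Agent.H504R3 (TVN)
open Pool.Agent.H504R3.S
open Pool.Agent.R970.SI

/-- substitution -/
def sb {U V : Type} (f : V → Tm U) : Tm V → Tm U
  | .var v => f v
  | .one => .one
  | .add s t => .add (sb f s) (sb f t)
  | .mul s t => .mul (sb f s) (sb f t)
  | .adj s => .adj (sb f s)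
  | .scal c s => .scal c (sb f s)

theorem tval_sb (T : TVN) {U V : Type} (x : U → T.E) (f : V → Tm U) :
    ∀ t, tval T x (sb f t) = tval T (fun v => tval T x (f v)) t
  | .var v => rfl
  | .one => rfl
  | .add s t => by
    show tval T x (sb f s) + tval T x (sb f t) = tval T _ s + tval T _ t
    rw [tval_sb T x f s, tval_sb T x f t]
  | .mul s t => by
    show tval T x (sb f s) * tval T x (sb f t) = tval T _ s * tval T _ t
    rw [tval_sb T x f s, tval_sb T x f t]
  | .adj s => by
    show star (tval T x (sb f s)) = star (tval T _ s)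
    rw [tval_sb T x f s]
  | .scal c s => by
    show c • tval T x (sb f s) = c • tval T _ s
    rw [tval_sb T x f s]

theorem exists_ext {K I I' : Type} [Finite K] [Infinite I'] (e : K → I) (e' : K → I')
    (he : Function.Injective e) (he' : Function.Injective e') (F : Finset I) :
    ∃ (K' : Type) (_ : Finite K') (i : K → K') (e1 : K' → I) (e1' : K' → I'),
      Function.Injective e1 ∧ Function.Injective e1' ∧ e1 ∘ i = e ∧ e1' ∘ i = e' ∧
        (F : Set I) ⊆ Set.range e1 := by
  classical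
  have hfin : (Set.range e').Finite := Set.finite_range e'
  have hinf : Infinite ((Set.range e')ᶜ : Set I') := hfin.infinite_compl.to_subtype
  have hG : Finite {x // x ∈ F ∧ x ∉ Set.range e} :=
    Finite.of_injective (fun x : {x // x ∈ F ∧ x ∉ Set.range e} => (⟨x.1, x.2.1⟩ : F))
      (fun a b hab => Subtype.ext (congrArg (fun z : F => z.1) hab))
  have := Fintype.ofFinite {x // x ∈ F ∧ x ∉ Set.range e}
  obtain ⟨g, hg⟩ : ∃ g : {x // x ∈ F ∧ x ∉ Set.range e} → ((Set.range e')ᶜ : Set I'),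
      Function.Injective g := by
    let a := Fintype.equivFin {x // x ∈ F ∧ x ∉ Set.range e}
    let b := Infinite.natEmbedding ((Set.range e')ᶜ : Set I')
    exact ⟨fun x => b (a x).1, fun x y hxy => a.injective (Fin.ext (b.injective hxy))⟩
  refine ⟨K ⊕ {x // x ∈ F ∧ x ∉ Set.range e}, inferInstance, Sum.inl,
    Sum.elim e Subtype.val, Sum.elim e' (fun x => (g x).1), ?_, ?_, rfl, rfl, ?_⟩
  · refine he.sumElim Subtype.val_injective fun a b hab => b.2.2 ⟨a, hab⟩
  · refine he'.sumElim (fun a b hab => hg (Subtype.ext hab)) fun a b hab => (g b).2 ⟨a, hab⟩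
  · intro x hx
    by_cases h : x ∈ Set.range e
    · obtain ⟨k, rfl⟩ := h
      exact ⟨Sum.inl k, rfl⟩
    · exact ⟨Sum.inr ⟨x, hx, h⟩, rfl⟩

theorem exists_term {I K : Type} {T : TVN} {W : PV I → T.E} (h : Sys T W) {e : K → I}
    (he : Function.Injective e) {F : Finset I} (hF : (F : Set I) ⊆ Set.range e) {z : T.E}
    (hz : z ∈ SF h F) : ∃ s : Tm (PV K), tval T (fun v => W (mp e v)) s = z := by
  rw [mem_SF] at hz
  induction hz using Submodule.span_induction with
  | mem x hx =>
    obtain ⟨v, hv, rfl⟩ := hx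
    have hv' := (mem_VF _ _).1 hv
    refine ⟨.var (v.comapDomain e he.injOn), ?_⟩
    show W (mp e _) = W v
    unfold mp
    rw [Finsupp.mapDomain_comapDomain e he v (fun i hi => hF (hv' hi))]
  | zero =>
    refine ⟨.scal 0 .one, ?_⟩
    show (0 : ℂ) • (1 : T.E) = 0
    rw [zero_smul]
  | add u v _ _ h1 h2 =>
    obtain ⟨s, rfl⟩ := h1
    obtain ⟨t, rfl⟩ := h2
    exact ⟨.add s t, rfl⟩
  | smul c u _ h1 =>
    obtain ⟨s, rfl⟩ := h1
    exact ⟨.scal c s, rfl⟩

/-- the invariance property -/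
def Iv {n : ℕ} (φ : Fm n) : Prop := ∀ (K : Type) [Finite K] (t : Fin n → Tm (PV K)) (I I' : Type)
  [Infinite I] [Infinite I'] (T T' : TVN) (W : PV I → T.E) (W' : PV I' → T'.E), Sys T W →
  Sys T' W' → ∀ (e : K → I) (e' : K → I'), Function.Injective e → Function.Injective e' →
    φ.val (str T) (fun i => tval T (fun v => W (mp e v)) (t i)) =
      φ.val (str T') (fun i => tval T' (fun v => W' (mp e' v)) (t i))

theorem approx {n : ℕ} {φ : Fm (n + 1)} (ih : Iv φ) {K : Type} [Finite K]
    (t : Fin n → Tm (PV K)) {I I' : Type} [Infinite I] [Infinite I'] {T T' : TVN}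
    {W : PV I → T.E} {W' : PV I' → T'.E} (h : Sys T W) (h' : Sys T' W') {e : K → I} {e' : K → I'}
    (he : Function.Injective e) (he' : Function.Injective e') (r : ℕ) (y : (str T).Ball r)
    (ε : ℝ) (hε : 0 < ε) : ∃ y' : (str T').Ball r,
      |φ.val (str T) (Fin.cons y.1 (fun i => tval T (fun v => W (mp e v)) (t i))) -
        φ.val (str T') (Fin.cons y'.1 (fun i => tval T' (fun v => W' (mp e' v)) (t i)))| ≤ ε := by
  obtain ⟨R, hR, hx⟩ := Pool.Agent.R283.GV.exists_bound
    (fun i => tval T (fun v => W (mp e v)) (t i))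
  obtain ⟨δ, hδ, hu⟩ := (good φ).2 (max R r) (by positivity) ε hε
  obtain ⟨F, z, hz, hzn, hzd⟩ := ball_dense h y.1 δ hδ
  obtain ⟨K', hK', i, e1, e1', he1, he1', h1, h2, hF⟩ := exists_ext e e' he he' F
  obtain ⟨s, rfl⟩ := exists_term h he1 hF hz
  have hy' : T'.opNorm (tval T' (fun v => W' (mp e1' v)) s) ≤ r := by
    rw [← op_eq h he1 h' he1']
    exact hzn.trans y.2
  refine ⟨⟨tval T' (fun v => W' (mp e1' v)) s, hy'⟩, ?_⟩
  have hyz : T.opNorm (tval T (fun v => W (mp e1 v)) s) ≤ r := hzn.trans y.2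
  have hu1 := hu T (Fin.cons y.1 (fun i => tval T (fun v => W (mp e v)) (t i)))
    (Fin.cons (tval T (fun v => W (mp e1 v)) s) (fun i => tval T (fun v => W (mp e v)) (t i)))
    (cons_op hx y) (cons_op hx ⟨_, hyz⟩) (by
      intro j
      refine Fin.cases ?_ (fun j => ?_) j
      · exact hzd.le
      · show T.norm2 (tval T _ (t j) - tval T _ (t j)) ≤ δ
        rw [norm2_self]
        exact hδ.le)
  have e2 := ih K' (Fin.cons s (fun j => sb (fun v => .var (mp i v)) (t j))) I I' T T' W W' h h'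
    e1 e1' he1 he1'
  have e3 : (fun j => tval T (fun v => W (mp e1 v))
      ((Fin.cons s (fun j => sb (fun v => .var (mp i v)) (t j)) : Fin (n + 1) → Tm (PV K')) j)) =
      Fin.cons (tval T (fun v => W (mp e1 v)) s) (fun i => tval T (fun v => W (mp e v)) (t i)) := by
    funext j
    refine Fin.cases rfl (fun j => ?_) j
    show tval T _ (sb (fun v => .var (mp i v)) (t j)) = tval T _ (t j)
    rw [tval_sb]
    congr 1
    funext v
    show W (mp e1 (mp i v)) = _
    rw [mp_comp, h1]
  have e4 : (fun j => tval T' (fun v => W' (mp e1' v))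
      ((Fin.cons s (fun j => sb (fun v => .var (mp i v)) (t j)) : Fin (n + 1) → Tm (PV K')) j)) =
      Fin.cons (tval T' (fun v => W' (mp e1' v)) s)
        (fun i => tval T' (fun v => W' (mp e' v)) (t i)) := by
    funext j
    refine Fin.cases rfl (fun j => ?_) j
    show tval T' _ (sb (fun v => .var (mp i v)) (t j)) = tval T' _ (t j)
    rw [tval_sb]
    congr 1
    funext v
    show W' (mp e1' (mp i v)) = _
    rw [mp_comp, h2]
  rw [e3, e4] at e2
  refine (le_of_eq ?_).trans hu1
  exact congrArg (fun z => |φ.val (str T)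
    (Fin.cons y.1 (fun i => tval T (fun v => W (mp e v)) (t i))) - z|) e2.symm

theorem sup_eq2 {α β : Type} [Nonempty α] [Nonempty β] {f : α → ℝ} {g : β → ℝ}
    {C D : ℝ} (hf : ∀ a, |f a| ≤ C) (hg : ∀ b, |g b| ≤ D)
    (h1 : ∀ a, ∀ ε : ℝ, 0 < ε → ∃ b, |f a - g b| ≤ ε)
    (h2 : ∀ b, ∀ ε : ℝ, 0 < ε → ∃ a, |g b - f a| ≤ ε) : (⨆ a, f a) = ⨆ b, g b := by
  apply le_antisymm
  · apply le_of_forall_pos_le_add
    intro ε hε
    refine ciSup_le fun a => ?_
    obtain ⟨b, hb⟩ := h1 a ε hε
    have := le_ciSup (f := g) ⟨D, by rintro _ ⟨b, rfl⟩; exact (abs_le.1 (hg b)).2⟩ b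
    linarith [(abs_le.1 hb).2]
  · apply le_of_forall_pos_le_add
    intro ε hε
    refine ciSup_le fun a => ?_
    obtain ⟨b, hb⟩ := h2 a ε hε
    have := le_ciSup (f := f) ⟨C, by rintro _ ⟨b, rfl⟩; exact (abs_le.1 (hf b)).2⟩ b
    linarith [(abs_le.1 hb).2]

theorem inf_eq2 {α β : Type} [Nonempty α] [Nonempty β] {f : α → ℝ} {g : β → ℝ}
    {C D : ℝ} (hf : ∀ a, |f a| ≤ C) (hg : ∀ b, |g b| ≤ D)
    (h1 : ∀ a, ∀ ε : ℝ, 0 < ε → ∃ b, |f a - g b| ≤ ε)
    (h2 : ∀ b, ∀ ε : ℝ, 0 < ε → ∃ a, |g b - f a| ≤ ε) : (⨅ a, f a) = ⨅ b, g b := by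
  apply le_antisymm
  · apply le_of_forall_pos_le_add
    intro ε hε
    rw [← sub_le_iff_le_add]
    refine le_ciInf fun b => ?_
    obtain ⟨a, ha⟩ := h2 b ε hε
    have := ciInf_le (f := f) ⟨-C, by rintro _ ⟨b, rfl⟩; exact (abs_le.1 (hf b)).1⟩ a
    linarith [(abs_le.1 ha).1]
  · apply le_of_forall_pos_le_add
    intro ε hε
    rw [← sub_le_iff_le_add]
    refine le_ciInf fun b => ?_
    obtain ⟨a, ha⟩ := h1 b ε hε
    have := ciInf_le (f := g) ⟨-D, by rintro _ ⟨b, rfl⟩; exact (abs_le.1 (hg b)).1⟩ a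
    linarith [(abs_le.1 ha).1]

/-- The value of a formula at Pauli elements does not depend on the positions of the sites. -/
theorem inv {n : ℕ} (φ : Fm n) : Iv φ := by
  induction φ with
  | re t =>
    intro K _ s I I' _ _ T T' W W' h h' e e' he he'
    show (T.τ (tval T _ t)).re = (T'.τ (tval T' _ t)).re
    rw [← tval_sb T (fun v => W (mp e v)) s t, ← tval_sb T' (fun v => W' (mp e' v)) s t,
      tau_eq h he h' he']
  | im t =>
    intro K _ s I I' _ _ T T' W W' h h' e e' he he'
    show (T.τ (tval T _ t)).im = (T'.τ (tval T' _ t)).im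
    rw [← tval_sb T (fun v => W (mp e v)) s t, ← tval_sb T' (fun v => W' (mp e' v)) s t,
      tau_eq h he h' he']
  | nrm t =>
    intro K _ s I I' _ _ T T' W W' h h' e e' he he'
    show T.norm2 (tval T _ t) = T'.norm2 (tval T' _ t)
    rw [← tval_sb T (fun v => W (mp e v)) s t, ← tval_sb T' (fun v => W' (mp e' v)) s t,
      n2_eq h he h' he']
  | conn u φ ih =>
    intro K _ s I I' _ _ T T' W W' h h' e e' he he'
    show u (fun i => (φ i).val (str T) _) = u (fun i => (φ i).val (str T') _)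
    congr 1
    funext i
    exact ih i K s I I' T T' W W' h h' e e' he he'
  | @sup n r φ ih =>
    intro K _ s I I' _ _ T T' W W' h h' e e' he he'
    obtain ⟨C, hC⟩ := Pool.Agent.R283.GV.bdd_of φ r T (fun i => tval T (fun v => W (mp e v)) (s i))
    obtain ⟨D, hD⟩ := Pool.Agent.R283.GV.bdd_of φ r T'
      (fun i => tval T' (fun v => W' (mp e' v)) (s i))
    have := ball_nonempty T r
    have := ball_nonempty T' r
    exact sup_eq2 hC hD (fun y ε hε => approx ih s h h' he he' r y ε hε)
      (fun y ε hε => approx ih s h' h he' he r y ε hε)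
  | @inf n r φ ih =>
    intro K _ s I I' _ _ T T' W W' h h' e e' he he'
    obtain ⟨C, hC⟩ := Pool.Agent.R283.GV.bdd_of φ r T (fun i => tval T (fun v => W (mp e v)) (s i))
    obtain ⟨D, hD⟩ := Pool.Agent.R283.GV.bdd_of φ r T'
      (fun i => tval T' (fun v => W' (mp e' v)) (s i))
    have := ball_nonempty T r
    have := ball_nonempty T' r
    exact inf_eq2 hC hD (fun y ε hε => approx ih s h h' he he' r y ε hε)
      (fun y ε hε => approx ih s h' h he' he r y ε hε)

/-- All Pauli systems over infinite index sets are elementarily equivalent. -/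
theorem elemEq_of_sys {I I' : Type} [Infinite I] [Infinite I'] {T T' : TVN} {W : PV I → T.E}
    {W' : PV I' → T'.E} (h : Sys T W) (h' : Sys T' W') : (str T).ElemEq (str T') := by
  intro φ
  have h1 := inv φ Empty (fun i => i.elim0) I I' T T' W W' h h' (fun x => x.elim)
    (fun x => x.elim) (fun x => x.elim) (fun x => x.elim)
  have e1 : ∀ (x y : Fin 0 → (str T).carrier), φ.val (str T) x = φ.val (str T) y :=
    fun x y => congrArg _ (funext fun i => i.elim0)
  have e2 : ∀ (x y : Fin 0 → (str T').carrier), φ.val (str T') x = φ.val (str T') y :=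
    fun x y => congrArg _ (funext fun i => i.elim0)
  exact (e1 _ _).trans (h1.trans (e2 _ _))

end Pool.Agent.U108.NS
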