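import Mathlib
import Pool.Agent.U108.NS.Pau
import Pool.Agent.U108.EC.Vac
import Pool.Agent.Helper278.GroupVN

/-!
The algebra generated by Pauli unitaries over an arbitrary index set.
-/

set_option autoImplicit false

open scoped InnerProductSpace

namespace Pool.Agent.U108.NS

open Pool.Agent.H504R3 (TVN)
open Pool.Agent.H504R3.S
open Pool.Agent.H467F (vnGen)
open Pool.Agent.U108.EC (Vac mem_vn sub_vn)
open Pool.Agent.Helper278 (EllTwo ext_basis inner_bb inner_bb_self)
open Pool.Agent.Helper436.SM (sg sg_add sg_mul_self norm_sg star_sg)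

namespace RI

variable {I : Type}

/-- signed translation operators -/
noncomputable def sop (s : PV I → ℂ) (hs : ∀ h, ‖s h‖ = 1) (v : PV I) :
    EllTwo (PV I) →L[ℂ] EllTwo (PV I) :=
  LinearIsometry.toContinuousLinearMap
    { toFun := fun f => ⟨fun h => s h * f (h + v), by
        have h1 := (lp.memℓp f).summable (by norm_num)
        refine memℓp_gen ?_
        have h2 := ((Equiv.addRight v).summable_iff
          (f := fun h => ‖f h‖ ^ (2 : ENNReal).toReal)).2 h1
        refine h2.congr fun h => ?_
        rw [norm_mul, hs, one_mul]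
        rfl⟩
      map_add' := fun f g => by
        ext h
        show s h * (f + g) (h + v) = s h * f (h + v) + s h * g (h + v)
        rw [lp.coeFn_add, Pi.add_apply, mul_add]
      map_smul' := fun c f => by
        ext h
        show s h * (c • f) (h + v) = c * (s h * f (h + v))
        rw [lp.coeFn_smul, Pi.smul_apply, smul_eq_mul]
        ring
      norm_map' := fun f => by
        have h1 : (0 : ℝ) < (2 : ENNReal).toReal := by norm_num
        rw [lp.norm_eq_tsum_rpow h1, lp.norm_eq_tsum_rpow h1]
        congr 1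
        rw [← (Equiv.addRight v).tsum_eq (fun h => ‖f h‖ ^ (2 : ENNReal).toReal)]
        refine tsum_congr fun h => ?_
        show ‖s h * f (h + v)‖ ^ _ = ‖f (h + v)‖ ^ _
        rw [norm_mul, hs, one_mul] }

/-- the Pauli operators -/
noncomputable def Wo (v : PV I) : EllTwo (PV I) →L[ℂ] EllTwo (PV I) :=
  sop (fun h => sg (bf v (h + v))) (fun _ => norm_sg _) v

/-- the right operators -/
noncomputable def Ro (v : PV I) : EllTwo (PV I) →L[ℂ] EllTwo (PV I) :=
  sop (fun h => sg (bf (h + v) v)) (fun _ => norm_sg _) v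

theorem Wo_apply (v : PV I) (f : EllTwo (PV I)) (h : PV I) :
    (Wo v f) h = sg (bf v (h + v)) * f (h + v) := rfl

theorem Ro_apply (v : PV I) (f : EllTwo (PV I)) (h : PV I) :
    (Ro v f) h = sg (bf (h + v) v) * f (h + v) := rfl

theorem Wo_zero : (Wo 0 : EllTwo (PV I) →L[ℂ] EllTwo (PV I)) = 1 := by
  ext f h
  rw [Wo_apply, bf_zero_left, sg_zero, one_mul, add_zero]
  rfl

theorem Wo_mul (v w : PV I) : Wo v * Wo w = sg (bf v w) • Wo (v + w) := by
  ext f h
  show (Wo v (Wo w f)) h = sg (bf v w) * (Wo (v + w) f) h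
  rw [Wo_apply, Wo_apply, Wo_apply, ← mul_assoc, ← mul_assoc, ← sg_add, ← sg_add]
  have h1 : h + v + w = h + (v + w) := add_assoc _ _ _
  have h2 : bf v (h + v) + bf w (h + v + w) = bf v w + bf (v + w) (h + (v + w)) := by
    simp only [bf_add_left, bf_add_right]
    have h3 : bf v w + bf v w = 0 := CharTwo.add_self_eq_zero _
    linear_combination (-1 : ZMod 2) * h3
  rw [h2, h1]

theorem Wo_Ro (v u : PV I) : Wo v * Ro u = Ro u * Wo v := by
  ext f h
  show (Wo v (Ro u f)) h = (Ro u (Wo v f)) h
  rw [Wo_apply, Ro_apply, Ro_apply, Wo_apply, ← mul_assoc, ← mul_assoc, ← sg_add, ← sg_add]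
  have h1 : h + v + u = h + u + v := add_right_comm _ _ _
  have h2 : bf v (h + v) + bf (h + v + u) u = bf (h + u) u + bf v (h + u + v) := by
    simp only [bf_add_left, bf_add_right]
    ring
  rw [h2, h1]

theorem star_Wo (v : PV I) : star (Wo v) = sg (bf v v) • Wo v := by
  rw [ContinuousLinearMap.star_eq_adjoint]
  symm
  rw [ContinuousLinearMap.eq_adjoint_iff]
  intro x y
  have h1 := lp.hasSum_inner (𝕜 := ℂ) ((sg (bf v v) • Wo v) x) y
  have h2 := lp.hasSum_inner (𝕜 := ℂ) x (Wo v y)
  have h3 := ((Equiv.addRight v).hasSum_iff (f := fun i => ⟪x i, (Wo v y) i⟫_ℂ)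
    (a := ⟪x, Wo v y⟫_ℂ)).2 h2
  refine h1.unique ?_
  refine h3.congr_fun ?_
  intro i
  show ⟪sg (bf v v) * (Wo v x) i, y i⟫_ℂ = ⟪x (i + v), (Wo v y) (i + v)⟫_ℂ
  rw [Wo_apply, Wo_apply, pv_cancel, ← mul_assoc, ← sg_add]
  have h4 : bf v v + bf v (i + v) = bf v i := by
    rw [bf_add_right]
    have h3 : bf v v + bf v v = 0 := CharTwo.add_self_eq_zero _
    linear_combination h3
  rw [h4, ← smul_eq_mul, ← smul_eq_mul, inner_smul_left, inner_smul_right]
  congr 1
  exact star_sg _

/-- the standard basis -/
noncomputable def bb : HilbertBasis (PV I) ℂ (EllTwo (PV I)) :=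
  HilbertBasis.ofRepr (LinearIsometryEquiv.refl ℂ (EllTwo (PV I)))

theorem coef_bb (k : PV I) (f : EllTwo (PV I)) : ⟪bb k, f⟫_ℂ = f k := by
  rw [← bb.repr_apply_apply]
  rfl

open Classical in
theorem bb_apply (k h : PV I) : (bb k) h = if h = k then 1 else 0 := by
  rw [← coef_bb]
  split_ifs with hk
  · rw [hk]
    exact inner_bb_self bb k
  · exact inner_bb bb h k hk

theorem Ro_bb (w : PV I) : Ro w (bb 0) = bb w := by
  ext h
  rw [Ro_apply, bb_apply, bb_apply]
  by_cases hh : h = w
  · subst hh
    rw [pv_add_self, bf_zero_left, sg_zero]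
    simp
  · have h1 : h + w ≠ 0 := by
      intro h2
      apply hh
      have h3 := pv_cancel h w
      rw [h2, zero_add] at h3
      exact h3.symm
    simp [h1, hh]

theorem Wo_bb (w : PV I) : Wo w (bb 0) = bb w := by
  ext h
  rw [Wo_apply, bb_apply, bb_apply]
  by_cases hh : h = w
  · subst hh
    rw [pv_add_self, bf_zero_right, sg_zero]
    simp
  · have h1 : h + w ≠ 0 := by
      intro h2
      apply hh
      have h3 := pv_cancel h w
      rw [h2, zero_add] at h3
      exact h3.symm
    simp [h1, hh]

/-- the star algebra generated by the Pauli operators is their span -/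
theorem adjoin_span {x : EllTwo (PV I) →L[ℂ] EllTwo (PV I)}
    (hx : x ∈ StarAlgebra.adjoin ℂ (Set.range (Wo (I := I)))) :
    x ∈ Submodule.span ℂ (Set.range (Wo (I := I))) := by
  induction hx using StarAlgebra.adjoin_induction with
  | mem x hx => exact Submodule.subset_span hx
  | algebraMap c =>
    rw [Algebra.algebraMap_eq_smul_one, ← Wo_zero]
    exact Submodule.smul_mem _ _ (Submodule.subset_span ⟨0, rfl⟩)
  | add x y _ _ h1 h2 => exact add_mem h1 h2
  | mul x y hx hy h1 h2 =>
    clear hx hy
    induction h1 using Submodule.span_induction with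
    | mem x hx =>
      obtain ⟨v, rfl⟩ := hx
      induction h2 using Submodule.span_induction with
      | mem y hy =>
        obtain ⟨w, rfl⟩ := hy
        rw [Wo_mul]
        exact Submodule.smul_mem _ _ (Submodule.subset_span ⟨_, rfl⟩)
      | zero => rw [mul_zero]; exact zero_mem _
      | add u v _ _ h1 h2 => rw [mul_add]; exact add_mem h1 h2
      | smul c u _ h1 => rw [mul_smul_comm]; exact Submodule.smul_mem _ _ h1
    | zero => rw [zero_mul]; exact zero_mem _
    | add u v _ _ h1 h2 => rw [add_mul]; exact add_mem h1 h2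
    | smul c u _ h1 => rw [smul_mul_assoc]; exact Submodule.smul_mem _ _ h1
  | star x hx h1 =>
    clear hx
    induction h1 using Submodule.span_induction with
    | mem x hx =>
      obtain ⟨v, rfl⟩ := hx
      rw [star_Wo]
      exact Submodule.smul_mem _ _ (Submodule.subset_span ⟨_, rfl⟩)
    | zero => rw [star_zero]; exact zero_mem _
    | add u v _ _ h1 h2 => rw [star_add]; exact add_mem h1 h2
    | smul c u _ h1 => rw [star_smul]; exact Submodule.smul_mem _ _ h1

theorem tr_Wo (v w : PV I) :
    ⟪(bb 0 : EllTwo (PV I)), Wo v (Wo w (bb 0))⟫_ℂ = open Classical in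
      if v = w then sg (bf v w) else 0 := by
  rw [Wo_bb, coef_bb, Wo_apply, bb_apply, zero_add]
  by_cases h : v = w
  · subst h
    simp
  · simp [h]

theorem vac : Vac (Set.range (Wo (I := I))) (bb 0) where
  norm := bb.orthonormal.1 0
  tr := by
    intro x hx y hy
    have hx' := adjoin_span hx
    have hy' := adjoin_span hy
    clear hx hy
    induction hx' using Submodule.span_induction with
    | mem x hx =>
      obtain ⟨v, rfl⟩ := hx
      induction hy' using Submodule.span_induction with
      | mem y hy =>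
        obtain ⟨w, rfl⟩ := hy
        rw [tr_Wo, tr_Wo]
        by_cases h : v = w
        · subst h
          rfl
        · rw [if_neg h, if_neg (Ne.symm h)]
      | zero => rw [zero_apply, zero_apply, ContinuousLinearMap.map_zero (Wo v)]
      | add u v _ _ h1 h2 =>
        rw [add_apply, add_apply, map_add, inner_add_right, inner_add_right, h1, h2]
      | smul c u _ h1 =>
        rw [smul_apply, smul_apply, map_smul, inner_smul_right, inner_smul_right, h1]
    | zero => rw [zero_apply, zero_apply, ContinuousLinearMap.map_zero y]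
    | add u v _ _ h1 h2 =>
      rw [add_apply, add_apply, map_add, inner_add_right, inner_add_right, h1, h2]
    | smul c u _ h1 =>
      rw [smul_apply, smul_apply, map_smul, inner_smul_right, inner_smul_right, h1]
  cyc := by
    intro ξ ε hε
    have hd : Dense ((Submodule.span ℂ (Set.range (bb (I := I))) :
        Submodule ℂ (EllTwo (PV I))) : Set (EllTwo (PV I))) := by
      rw [Submodule.dense_iff_topologicalClosure_eq_top]
      exact bb.dense_span
    obtain ⟨ζ, hζ, h1⟩ := Metric.mem_closure_iff.1 (hd ξ) ε hε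
    rw [dist_eq_norm] at h1
    obtain ⟨c, hc, rfl⟩ : ∃ c ∈ StarSubalgebra.centralizer ℂ (Set.range (Wo (I := I))),
        c (bb 0) = ζ := by
      clear h1
      have hζ' : ζ ∈ Submodule.span ℂ (Set.range (bb (I := I))) := hζ
      clear hζ
      induction hζ' using Submodule.span_induction with
      | mem x hx =>
        obtain ⟨w, rfl⟩ := hx
        refine ⟨Ro w, ?_, Ro_bb w⟩
        rw [StarSubalgebra.mem_centralizer_iff]
        rintro _ ⟨v, rfl⟩
        refine ⟨Wo_Ro v w, ?_⟩
        rw [star_Wo, smul_mul_assoc, mul_smul_comm, Wo_Ro]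
      | zero => exact ⟨0, zero_mem _, by rw [zero_apply]⟩
      | add u v _ _ h1 h2 =>
        obtain ⟨c, hc, rfl⟩ := h1
        obtain ⟨d, hd, rfl⟩ := h2
        exact ⟨c + d, add_mem hc hd, by rw [add_apply]⟩
      | smul a u _ h1 =>
        obtain ⟨c, hc, rfl⟩ := h1
        exact ⟨a • c, (StarSubalgebra.centralizer ℂ (Set.range (Wo (I := I)))).smul_mem hc a,
          by rw [smul_apply]⟩
    exact ⟨c, hc, h1⟩

/-- the tracial von Neumann algebra -/
noncomputable def TI (I : Type) : TVN := (vac (I := I)).tvn

/-- the Pauli unitaries -/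
noncomputable def WI (v : PV I) : (TI I).E := ⟨Wo v, sub_vn ⟨v, rfl⟩⟩

theorem sys (I : Type) : Sys (TI I) (WI (I := I)) where
  zero := Subtype.ext Wo_zero
  mul v w := Subtype.ext (Wo_mul v w)
  star v := Subtype.ext (star_Wo v)
  trace v hv := by
    show ⟪(bb 0 : EllTwo (PV I)), Wo v (bb 0)⟫_ℂ = 0
    rw [Wo_bb, coef_bb, bb_apply, if_neg (Ne.symm hv)]
  dense y ε hε := by
    obtain ⟨z, hz, h1⟩ := Pool.Agent.H467F.vn_dense (TI I).N (TI I).τ (TI I).normal
      ⟨(TI I).map_one, (TI I).tracial, (TI I).faithful⟩ (Set.range (WI (I := I))) (by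
        show vnGen (Set.range (Wo (I := I))) = _
        congr 1
        ext x
        constructor
        · rintro ⟨v, rfl⟩
          exact ⟨WI v, ⟨v, rfl⟩, rfl⟩
        · rintro ⟨_, ⟨v, rfl⟩, rfl⟩
          exact ⟨v, rfl⟩) y ε hε
    refine ⟨z, ?_, h1⟩
    clear h1
    have e0 : WI (0 : PV I) = 1 := Subtype.ext Wo_zero
    have em : ∀ v w : PV I, WI v * WI w = sg (bf v w) • WI (v + w) :=
      fun v w => Subtype.ext (Wo_mul v w)
    have es : ∀ v : PV I, star (WI v) = sg (bf v v) • WI v := fun v => Subtype.ext (star_Wo v)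
    induction hz using StarAlgebra.adjoin_induction with
    | mem x hx => exact Submodule.subset_span hx
    | algebraMap c =>
      rw [Algebra.algebraMap_eq_smul_one, ← e0]
      exact Submodule.smul_mem _ _ (Submodule.subset_span ⟨0, rfl⟩)
    | add x y _ _ h1 h2 => exact add_mem h1 h2
    | mul x y hx hy h1 h2 =>
      clear hx hy
      induction h1 using Submodule.span_induction with
      | mem x hx =>
        obtain ⟨v, rfl⟩ := hx
        induction h2 using Submodule.span_induction with
        | mem y hy =>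
          obtain ⟨w, rfl⟩ := hy
          rw [em]
          exact Submodule.smul_mem _ _ (Submodule.subset_span ⟨_, rfl⟩)
        | zero => rw [mul_zero]; exact zero_mem _
        | add u v _ _ h1 h2 => rw [mul_add]; exact add_mem h1 h2
        | smul c u _ h1 => rw [mul_smul_comm]; exact Submodule.smul_mem _ _ h1
      | zero => rw [zero_mul]; exact zero_mem _
      | add u v _ _ h1 h2 => rw [add_mul]; exact add_mem h1 h2
      | smul c u _ h1 => rw [smul_mul_assoc]; exact Submodule.smul_mem _ _ h1
    | star x hx h1 =>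
      clear hx
      induction h1 using Submodule.span_induction with
      | mem x hx =>
        obtain ⟨v, rfl⟩ := hx
        rw [es]
        exact Submodule.smul_mem _ _ (Submodule.subset_span ⟨_, rfl⟩)
      | zero => rw [star_zero]; exact zero_mem _
      | add u v _ _ h1 h2 => rw [star_add]; exact add_mem h1 h2
      | smul c u _ h1 => rw [star_smul]; exact Submodule.smul_mem _ _ h1

end RI

end Pool.Agent.U108.NS
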