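import Mathlib
import Pool.Agent.U108.NS.Defs
import Pool.Agent.U108.NS.Inv
import Pool.Agent.U108.NS.RI
import Pool.Agent.H504R3.ThB

/-!
The theory of the hyperfinite II_1 factor is not simple.
-/

set_option autoImplicit false

open Filter Topology

namespace Pool.Agent.U108.NS

open Pool.Agent.H504R3 (TVN)
open Pool.Agent.H504R3.S
open Pool.Agent.R970.SI
open Pool.Agent.Helper436.SM (sg sg_add sg_mul_self norm_sg star_sg)

/-- the sites -/
abbrev II : Type := ℝ × ℕ

section alg

variable {A : Type} [Ring A] [StarRing A] [Algebra ℂ A] [StarModule ℂ A]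

/-- the scalar `1/√2` -/
noncomputable def hh : ℂ := ((Real.sqrt 2)⁻¹ : ℝ)

theorem hh_sq : hh * hh = 1 / 2 := by
  unfold hh
  rw [← Complex.ofReal_mul, ← mul_inv, Real.mul_self_sqrt (by norm_num)]
  norm_num

theorem hh_star : star hh = hh := by
  unfold hh
  exact Complex.conj_ofReal _

/-- rotating one anticommuting symmetry into another -/
theorem rot {P R : A} (hP : P * P = 1) (hR : R * R = 1) (hPR : P * R = -(R * P)) :
    (hh • (P + R)) * (hh • (P + R)) = 1 ∧ (hh • (P + R)) * P * (hh • (P + R)) = R := by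
  have h1 : (P + R) * (P + R) = (2 : ℂ) • (1 : A) := by
    rw [add_mul, mul_add, mul_add, hP, hR, hPR, two_smul]
    abel
  have h2 : (P + R) * P * (P + R) = (2 : ℂ) • R := by
    have e : (P + R) * P * (P + R) = P * P * P + P * P * R + R * (P * P) + R * P * R := by
      noncomm_ring
    have e2 : R * P * R = -P := by
      rw [mul_assoc, hPR, mul_neg, ← mul_assoc, hR, one_mul]
    rw [e, e2, hP, one_mul, one_mul, mul_one, two_smul]
    abel
  constructor
  · rw [smul_mul_smul_comm, h1, smul_smul, hh_sq]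
    norm_num
  · rw [smul_mul_assoc, smul_mul_assoc, mul_smul_comm, smul_smul, h2, smul_smul, hh_sq]
    norm_num

end alg

section wit

variable {T : TVN} {W : PV II → T.E}

/-- the Pauli element at a site -/
noncomputable def X (W : PV II → T.E) (s : II) : T.E := W (Finsupp.single s (1, 0))

/-- the connecting element of a row -/
noncomputable def Z (W : PV II → T.E) (i : ℝ) : T.E :=
  W (Finsupp.single (i, 0) (0, 1) + Finsupp.single (i, 1) (0, 1))

theorem bf_single (s : II) (a : ZMod 2 × ZMod 2) (w : PV II) :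
    bf (Finsupp.single s a) w = a.2 * (w s).1 := by
  unfold bf
  rw [Finsupp.sum_single_index]
  simp

theorem W_sq (h : Sys T W) {v : PV II} (hv : bf v v = 0) : W v * W v = 1 := by
  rw [h.mul, hv, sg_zero, one_smul, pv_add_self, h.zero]

theorem W_sa (h : Sys T W) {v : PV II} (hv : bf v v = 0) : star (W v) = W v := by
  rw [h.star, hv, sg_zero, one_smul]

theorem W_comm (h : Sys T W) {v w : PV II} (hvw : bf v w = bf w v) : W v * W w = W w * W v := by
  rw [h.mul, h.mul, hvw, add_comm]

theorem W_anti (h : Sys T W) {v w : PV II} (hvw : bf v w = bf w v + 1) :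
    W v * W w = -(W w * W v) := by
  rw [h.mul, h.mul, hvw, add_comm v w, sg_add]
  have : sg 1 = -1 := by simp [sg]
  rw [this, mul_neg, mul_one, neg_smul]

theorem bXX (s t : II) : bf (Finsupp.single s (1, 0)) (Finsupp.single t (1, 0)) = 0 := by
  rw [bf_single]
  simp

theorem bXZ (s : II) (w : PV II) : bf (Finsupp.single s (1, 0)) w = 0 := by
  rw [bf_single]
  simp

theorem bZ (i : ℝ) (w : PV II) :
    bf (Finsupp.single (i, 0) (0, 1) + Finsupp.single (i, 1) (0, 1)) w =
      (w (i, 0)).1 + (w (i, 1)).1 := by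
  rw [bf_add_left, bf_single, bf_single]
  simp

theorem ZZ (i : ℝ) : bf (Finsupp.single ((i, 0) : II) (0, 1) + Finsupp.single (i, 1) (0, 1))
    (Finsupp.single ((i, 0) : II) (0, 1) + Finsupp.single (i, 1) (0, 1)) = 0 := by
  rw [bZ]
  have h01 : ((i, 0) : II) ≠ (i, 1) := by simp
  rw [Finsupp.add_apply, Finsupp.add_apply, Finsupp.single_eq_same, Finsupp.single_eq_same,
    Finsupp.single_eq_of_ne h01, Finsupp.single_eq_of_ne h01.symm]
  simp

theorem X_sq (h : Sys T W) (s : II) : X W s * X W s = 1 := W_sq h (bXX s s)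

theorem X_sa (h : Sys T W) (s : II) : star (X W s) = X W s := W_sa h (bXX s s)

theorem X_comm (h : Sys T W) (s t : II) : X W s * X W t = X W t * X W s :=
  W_comm h (by rw [bXX, bXX])

theorem Z_sq (h : Sys T W) (i : ℝ) : Z W i * Z W i = 1 := W_sq h (ZZ i)

theorem Z_sa (h : Sys T W) (i : ℝ) : star (Z W i) = Z W i := W_sa h (ZZ i)

theorem XZ0 (h : Sys T W) (i : ℝ) : X W (i, 0) * Z W i = -(Z W i * X W (i, 0)) := by
  refine W_anti h ?_
  rw [bXZ, bZ]
  have h01 : ((i, 0) : II) ≠ (i, 1) := by simp
  rw [Finsupp.single_eq_same, Finsupp.single_eq_of_ne h01.symm]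
  decide

theorem ZX1 (h : Sys T W) (i : ℝ) : Z W i * X W (i, 1) = -(X W (i, 1) * Z W i) := by
  refine W_anti h ?_
  rw [bXZ, bZ]
  have h01 : ((i, 0) : II) ≠ (i, 1) := by simp
  rw [Finsupp.single_eq_same, Finsupp.single_eq_of_ne h01]
  decide

theorem XZ_comm (h : Sys T W) {i : ℝ} {s : II} (hs : s.1 ≠ i) : Z W i * X W s = X W s * Z W i := by
  refine W_comm h ?_
  rw [bXZ, bZ]
  have h0 : ((i, 0) : II) ≠ s := by rintro rfl; exact hs rfl
  have h1 : ((i, 1) : II) ≠ s := by rintro rfl; exact hs rfl
  rw [Finsupp.single_eq_of_ne h0, Finsupp.single_eq_of_ne h1]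
  simp

/-- the unitary of a row -/
noncomputable def uu (W : PV II → T.E) (i : ℝ) : T.E :=
  (hh • (Z W i + X W (i, 1))) * (hh • (X W (i, 0) + Z W i))

theorem uu_props (h : Sys T W) (i : ℝ) : star (uu W i) * uu W i = 1 ∧
    uu W i * X W (i, 0) * star (uu W i) = X W (i, 1) := by
  obtain ⟨a1, a2⟩ := rot (X_sq h (i, 0)) (Z_sq h i) (XZ0 h i)
  obtain ⟨b1, b2⟩ := rot (Z_sq h i) (X_sq h (i, 1)) (ZX1 h i)
  have s1 : star (hh • (Z W i + X W (i, 1))) = hh • (Z W i + X W (i, 1)) := by
    rw [star_smul, star_add, Z_sa h, X_sa h, hh_star]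
  have s2 : star (hh • (X W (i, 0) + Z W i)) = hh • (X W (i, 0) + Z W i) := by
    rw [star_smul, star_add, Z_sa h, X_sa h, hh_star]
  obtain ⟨U, hU⟩ : ∃ U, U = hh • (Z W i + X W (i, 1)) := ⟨_, rfl⟩
  obtain ⟨V, hV⟩ : ∃ V, V = hh • (X W (i, 0) + Z W i) := ⟨_, rfl⟩
  have e : uu W i = U * V := by rw [hU, hV]; rfl
  rw [← hU] at b1 b2 s1
  rw [← hV] at a1 a2 s2
  rw [e, star_mul, s1, s2]
  constructor
  · rw [mul_assoc, ← mul_assoc U, b1, one_mul, a1]
  · have e3 : U * V * X W (i, 0) * (V * U) = U * (V * X W (i, 0) * V) * U := by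
      simp only [mul_assoc]
    rw [e3, a2, b2]

theorem uu_comm (h : Sys T W) {i : ℝ} {s : II} (hs : s.1 ≠ i) :
    uu W i * X W s = X W s * uu W i := by
  unfold uu
  have e1 : (hh • (X W (i, 0) + Z W i)) * X W s = X W s * (hh • (X W (i, 0) + Z W i)) := by
    rw [smul_mul_assoc, mul_smul_comm, add_mul, mul_add, XZ_comm h hs, X_comm h]
  have e2 : (hh • (Z W i + X W (i, 1))) * X W s = X W s * (hh • (Z W i + X W (i, 1))) := by
    rw [smul_mul_assoc, mul_smul_comm, add_mul, mul_add, XZ_comm h hs, X_comm h]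
  rw [mul_assoc, e1, ← mul_assoc, e2, mul_assoc]

/-- the product of the unitaries of finitely many rows -/
noncomputable def ww (W : PV II → T.E) : List ℝ → T.E
  | [] => 1
  | i :: l => uu W i * ww W l

theorem ww_unit (h : Sys T W) : ∀ l, star (ww W l) * ww W l = 1
  | [] => by
    show star (1 : T.E) * 1 = 1
    rw [star_one, one_mul]
  | i :: l => by
    show star (uu W i * ww W l) * (uu W i * ww W l) = 1
    rw [star_mul, mul_assoc, ← mul_assoc (star (uu W i)), (uu_props h i).1, one_mul,
      ww_unit h l]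

theorem ww_comm (h : Sys T W) {s : II} : ∀ l : List ℝ, s.1 ∉ l → ww W l * X W s = X W s * ww W l
  | [], _ => by
    show (1 : T.E) * X W s = X W s * 1
    rw [one_mul, mul_one]
  | i :: l, hs => by
    rw [List.mem_cons, not_or] at hs
    show uu W i * ww W l * X W s = X W s * (uu W i * ww W l)
    rw [mul_assoc, ww_comm h l hs.2, ← mul_assoc, uu_comm h hs.1, mul_assoc]

theorem T_mul_star {x : T.E} (hx : star x * x = 1) : x * star x = 1 := by
  have h1 : T.τ (star (1 - x * star x) * (1 - x * star x)) = 0 := by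
    have e : star (1 - x * star x) * (1 - x * star x) =
        1 - x * star x - x * star x + x * (star x * x) * star x := by
      rw [star_sub, star_mul, star_star, star_one]
      noncomm_ring
    rw [e, hx, mul_one, map_add, map_sub, map_sub, T.tracial x (star x), hx]
    ring
  have h2 := T.faithful _ h1
  exact (sub_eq_zero.1 h2).symm

theorem ww_conj (h : Sys T W) {i : ℝ} : ∀ l : List ℝ, l.Nodup → i ∈ l →
    ww W l * X W (i, 0) * star (ww W l) = X W (i, 1)
  | [], _, hi => by simp at hi
  | j :: l, hn, hi => by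
    rw [List.nodup_cons] at hn
    show uu W j * ww W l * X W (i, 0) * star (uu W j * ww W l) = _
    have e : uu W j * ww W l * X W (i, 0) * star (uu W j * ww W l) =
        uu W j * (ww W l * X W (i, 0) * star (ww W l)) * star (uu W j) := by
      rw [star_mul]
      simp only [mul_assoc]
    rw [e]
    by_cases hij : i = j
    · subst hij
      have e2 : ww W l * X W (i, 0) * star (ww W l) = X W (i, 0) := by
        rw [ww_comm h l hn.1, mul_assoc, T_mul_star (ww_unit h l), mul_one]
      rw [e2]
      exact (uu_props h i).2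
    · have hil : i ∈ l := by
        rcases List.mem_cons.1 hi with h1 | h1
        · exact absurd h1 hij
        · exact h1
      rw [ww_conj h l hn.2 hil, uu_comm h (s := (i, 1)) hij, mul_assoc,
        T_mul_star (uu_props h j).1, mul_one]

theorem X_dist (h : Sys T W) {s t : II} (hst : s ≠ t) : 1 ≤ T.norm2 (X W s - X W t) := by
  have h1 : T.norm2 (X W s - X W t) ^ 2 = 2 := by
    rw [show T.norm2 (X W s - X W t) ^ 2 = (T.τ (star (X W s - X W t) * (X W s - X W t))).re from
      T.trAlg.n2_sq _]
    have hne : Finsupp.single s ((1, 0) : ZMod 2 × ZMod 2) ≠ Finsupp.single t (1, 0) := by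
      intro h0
      exact hst (Finsupp.single_left_injective (by decide) h0)
    have e1 : T.τ (star (X W s) * X W t) = 0 := by
      have := tau_WW h (Finsupp.single s (1, 0)) (Finsupp.single t (1, 0))
      rw [if_neg hne] at this
      exact this
    have e2 : T.τ (star (X W t) * X W s) = 0 := by
      have := tau_WW h (Finsupp.single t (1, 0)) (Finsupp.single s (1, 0))
      rw [if_neg hne.symm] at this
      exact this
    have e3 : ∀ s, T.τ (star (X W s) * X W s) = 1 := by
      intro s
      have := tau_WW h (Finsupp.single s (1, 0)) (Finsupp.single s (1, 0))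
      rw [if_pos rfl] at this
      exact this
    rw [star_sub, sub_mul, mul_sub, mul_sub, map_sub, map_sub, map_sub, e1, e2, e3, e3]
    norm_num
  nlinarith [norm2_nonneg T (X W s - X W t)]

/-- formulas do not see the positions of the sites -/
theorem perm_inv (h : Sys T W) {n : ℕ} (φ : Fm n) (s : Fin n → II) (π : II → II)
    (hπ : Function.Injective π) : φ.val (str T) (fun i => X W (s i)) =
      φ.val (str T) (fun i => X W (π (s i))) := by
  have h1 := inv φ (Set.range s) (fun i => .var (Finsupp.single ⟨s i, i, rfl⟩ (1, 0))) II II T T W W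
    h h Subtype.val (fun x => π x.1) Subtype.val_injective
    (fun a b hab => Subtype.ext (hπ hab))
  have e1 : (fun i => tval T (fun v => W (mp Subtype.val v))
      (.var (Finsupp.single (⟨s i, i, rfl⟩ : Set.range s) (1, 0)))) = fun i => X W (s i) := by
    funext i
    show W (mp _ _) = _
    rw [mp_single]
    rfl
  have e2 : (fun i => tval T (fun v => W (mp (fun x : Set.range s => π x.1) v))
      (.var (Finsupp.single (⟨s i, i, rfl⟩ : Set.range s) (1, 0)))) =
      fun i => X W (π (s i)) := by
    funext i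
    show W (mp _ _) = _
    rw [mp_single]
    rfl
  rw [e1, e2] at h1
  exact h1

end wit

end Pool.Agent.U108.NS
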