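import Mathlib
import Pool.Agent.U108.NS.Main

/-!
The type that divides over every separable subset of its domain.
-/

set_option autoImplicit false

open Filter Topology

namespace Pool.Agent.U108.NS

open Pool.Agent.H504R3 (TVN)
open Pool.Agent.H504R3.S
open Pool.Agent.R970.SI

/-- the formula `‖x c x* - b‖₂` with variables `x, b, c` -/
def φ0 : Fm (1 + 2) :=
  .nrm (.add (.mul (.mul (.var 0) (.var 2)) (.adj (.var 0))) (.scal (-1) (.var 1)))

theorem φ0_val (T : TVN) (x : Fin 1 → T.E) (b c : T.E) :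
    pval (str T) φ0 x ![b, c] = T.norm2 (x 0 * c * star (x 0) - b) := by
  show T.norm2 ((Fin.append x ![b, c] : Fin 3 → T.E) 0 * (Fin.append x ![b, c] : Fin 3 → T.E) 2 *
    star ((Fin.append x ![b, c] : Fin 3 → T.E) 0) +
      (-1 : ℂ) • (Fin.append x ![b, c] : Fin 3 → T.E) 1) = _
  rw [neg_one_smul, ← sub_eq_add_neg]
  rfl

/-- the ultrafilter on finite sets of rows -/
noncomputable def UF : Ultrafilter (Finset ℝ) := Ultrafilter.of atTop

theorem UF_mem (i : ℝ) : ∀ᶠ F in (UF : Filter (Finset ℝ)), i ∈ F := by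
  refine (Ultrafilter.of_le (atTop : Filter (Finset ℝ))) ?_
  filter_upwards [mem_atTop ({i} : Finset ℝ)] with F hF
  exact hF (Finset.mem_singleton_self i)

theorem exists_lim (g : Finset ℝ → ℝ) (C : ℝ) (hg : ∀ F, |g F| ≤ C) :
    ∃ L, Tendsto g (UF : Filter (Finset ℝ)) (𝓝 L) := by
  obtain ⟨L, _, hL⟩ := (isCompact_Icc (a := -C) (b := C)).ultrafilter_le_nhds (UF.map g) (by
    rw [le_principal_iff, Ultrafilter.coe_map, mem_map]
    exact Filter.mem_of_superset univ_mem fun F _ => abs_le.1 (hg F))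
  exact ⟨L, hL⟩

section

variable {T : TVN} {W : PV II → T.E} (h : Sys T W)

/-- the domain of the type -/
def BB (W : PV II → T.E) : Set T.E := {y | ∃ s : II, s.2 ≤ 1 ∧ y = X W s}

include h in
theorem exists_type : ∃ p : Ty 1 (BB W), IsType (str T) (BB W) 1 1 p ∧
    ∀ (i : ℝ) (u v : BB W), u.1 = X W (i, 1) → v.1 = X W (i, 0) → p 2 φ0 ![u, v] = 0 := by
  have hb : ∀ (m : ℕ) (φ : Fm (1 + m)) (c : Fin m → BB W), ∃ L,
      Tendsto (fun F : Finset ℝ => pval (str T) φ (fun _ => ww W F.toList) (fun j => (c j).1))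
        (UF : Filter (Finset ℝ)) (𝓝 L) := by
    intro m φ c
    obtain ⟨R, hR, hx⟩ := Pool.Agent.R283.GV.exists_bound (fun j => (c j).1)
    obtain ⟨C, hC⟩ := (good φ).1 (max R 1) (by positivity)
    refine exists_lim _ C fun F => ?_
    refine hC T (Fin.append (fun _ => ww W F.toList) (fun j => (c j).1)) ?_
    intro q
    refine Fin.addCases (fun i => ?_) (fun j => ?_) q
    · rw [Fin.append_left]
      exact (opNorm_unitary T (ww_unit h _)).trans (le_max_right _ _)
    · rw [Fin.append_right]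
      exact (hx j).trans (le_max_left _ _)
  choose p hp using hb
  refine ⟨p, ?_, ?_⟩
  · intro L ε hε
    have h1 : ∀ᶠ F in (UF : Filter (Finset ℝ)), ∀ q ∈ L,
        |pval (str T) q.2.2.1 (fun _ => ww W F.toList) (fun j => (q.2.2.2 j).1) -
          p q.2.1 q.2.2.1 q.2.2.2| < ε := by
      refine (Filter.eventually_all_finite (List.finite_toSet L)).2 fun q _ => ?_
      have := (Metric.tendsto_nhds.1 (hp q.2.1 q.2.2.1 q.2.2.2)) ε hε
      filter_upwards [this] with F hF
      rwa [Real.dist_eq] at hF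
    obtain ⟨F, hF⟩ := h1.exists
    refine ⟨fun _ => ⟨ww W F.toList, ?_⟩, fun q hq => hF q hq⟩
    have := opNorm_unitary T (ww_unit h F.toList)
    exact this.trans (by simp)
  · intro i u v hu hv
    refine tendsto_nhds_unique (hp 2 φ0 ![u, v]) ?_
    refine tendsto_const_nhds.congr' ?_
    filter_upwards [UF_mem i] with F hF
    have e : (fun j => ((![u, v] : Fin 2 → BB W) j).1) = ![u.1, v.1] := by
      funext j
      fin_cases j <;> rfl
    rw [e]
    refine Eq.symm ?_
    refine (φ0_val T _ _ _).trans ?_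
    rw [hu, hv, ww_conj h F.toList F.nodup_toList (Finset.mem_toList.2 hF), norm2_self]

/-- moving the sites of a row -/
noncomputable def mv (i : ℝ) (f : ℕ → ℕ) (s : II) : II :=
  open Classical in if s.1 = i ∧ 1 ≤ s.2 then (i, f (s.2 - 1) + 1) else s

theorem mv_inj (i : ℝ) {f : ℕ → ℕ} (hf : StrictMono f) : Function.Injective (mv i f) := by
  rintro ⟨a, b⟩ ⟨c, d⟩ hab
  unfold mv at hab
  simp only at hab
  split_ifs at hab with h1 h2 h2
  · rw [Prod.mk.injEq] at hab
    have := hf.injective (Nat.succ_injective hab.2)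
    rw [h1.1, h2.1]
    have e : b = d := by omega
    rw [e]
  · rw [Prod.mk.injEq] at hab
    exact absurd ⟨hab.1.symm, by omega⟩ h2
  · rw [Prod.mk.injEq] at hab
    exact absurd ⟨hab.1, by omega⟩ h1
  · exact hab

/-- the sequence -/
noncomputable def sq (W : PV II → T.E) (i : ℝ) (st : BB W → II) (k : ℕ) (y : BB W) : T.E :=
  open Classical in X W (if st y = (i, 1) then (i, k + 1) else st y)

theorem sq_eq (i : ℝ) (st : BB W → II) (k : ℕ) (y : BB W) :
    sq W i st k y = X W (open Classical in if st y = (i, 1) then (i, k + 1) else st y) := rfl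

include h in
theorem X_inj : Function.Injective (X W) := by
  intro s t hst
  by_contra hne
  have := X_dist h hne
  rw [hst, norm2_self] at this
  linarith

include h in
theorem indis {A : Set T.E} (hAB : A ⊆ BB W) {i : ℝ} (h1 : X W (i, 1) ∉ A) (st : BB W → II)
    (hst1 : ∀ y, (st y).2 ≤ 1) (hst2 : ∀ y : BB W, y.1 = X W (st y)) {f : ℕ → ℕ}
    (hf : StrictMono f) {m k : ℕ} (φ : Fm (m + k)) (c : Fin m → ℕ × BB W) (a : Fin k → T.E)
    (ha : ∀ j, a j ∈ A) : pval (str T) φ (fun j => sq W i st (c j).1 (c j).2) a =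
      pval (str T) φ (fun j => sq W i st (f (c j).1) (c j).2) a := by
  classical
  obtain ⟨S, hS⟩ : ∃ S : Fin (m + k) → II, S = Fin.append
    (fun j => if st (c j).2 = (i, 1) then (i, (c j).1 + 1) else st (c j).2)
    (fun j => st ⟨a j, hAB (ha j)⟩) := ⟨_, rfl⟩
  have e1 : (Fin.append (fun j => sq W i st (c j).1 (c j).2) a :
      Fin (m + k) → T.E) = fun q => X W (S q) := by
    funext q
    refine Fin.addCases (fun j => ?_) (fun j => ?_) q
    · rw [Fin.append_left, hS, Fin.append_left, sq_eq]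
    · rw [Fin.append_right, hS, Fin.append_right]
      exact hst2 ⟨a j, hAB (ha j)⟩
  have e2 : (Fin.append (fun j => sq W i st (f (c j).1) (c j).2) a :
      Fin (m + k) → T.E) = fun q => X W (mv i f (S q)) := by
    funext q
    refine Fin.addCases (fun j => ?_) (fun j => ?_) q
    · rw [Fin.append_left, hS, Fin.append_left, sq_eq]
      congr 1
      split_ifs with h0
      · unfold mv
        rw [if_pos ⟨rfl, by simp⟩]
        rfl
      · unfold mv
        rw [if_neg]
        rintro ⟨h2, h3⟩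
        apply h0
        refine Prod.ext h2 ?_
        have := hst1 (c j).2
        show (st (c j).2).2 = 1
        omega
    · rw [Fin.append_right, hS, Fin.append_right]
      have h4 := hst2 ⟨a j, hAB (ha j)⟩
      refine h4.trans ?_
      congr 1
      unfold mv
      rw [if_neg]
      rintro ⟨h2, h3⟩
      have h5 := hst1 ⟨a j, hAB (ha j)⟩
      have h6 : st ⟨a j, hAB (ha j)⟩ = (i, 1) := by
        refine Prod.ext h2 ?_
        show (st ⟨a j, hAB (ha j)⟩).2 = 1
        omega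
      rw [h6] at h4
      apply h1
      rw [← h4]
      exact ha j
  show φ.val (str T) _ = φ.val (str T) _
  refine (congrArg (φ.val (str T)) e1).trans (Eq.trans ?_ (congrArg (φ.val (str T)) e2).symm)
  exact perm_inv h φ S (mv i f) (mv_inj i hf)

include h in
theorem divides {A : Set T.E} (hAB : A ⊆ BB W) {i : ℝ} (h1 : X W (i, 1) ∉ A) {p : Ty 1 (BB W)}
    (hp : ∀ (i : ℝ) (u v : BB W), u.1 = X W (i, 1) →
      v.1 = X W (i, 0) → p 2 φ0 ![u, v] = 0) : Divides (str T) (BB W) A 1 1 p := by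
  classical
  have hst : ∀ y : BB W, ∃ s : II, s.2 ≤ 1 ∧ y.1 = X W s := fun y => y.2
  choose st hst1 hst2 using hst
  have Xinj := X_inj h
  have hsq0 : ∀ y, sq W i st 0 y = y.1 := by
    intro y
    rw [sq_eq, hst2 y]
    split_ifs with h0
    · rw [h0]
    · rfl
  refine ⟨str T, id, sq W i st, isTVN T, fun n φ x => rfl, hsq0, ?_, ?_⟩
  · intro f hf m k φ c a
    refine indis h hAB h1 st hst1 hst2 hf φ c (fun j => (a j).1) fun j => ?_
    obtain ⟨z, hz, hz2⟩ := (a j).2
    rw [← hz2]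
    exact hz
  · intro hcon
    have hu : X W (i, 1) ∈ BB W := ⟨(i, 1), le_refl _, rfl⟩
    have hv : X W (i, 0) ∈ BB W := ⟨(i, 0), by simp, rfl⟩
    have su : st ⟨X W (i, 1), hu⟩ = (i, 1) := (Xinj (hst2 ⟨X W (i, 1), hu⟩)).symm
    have sv : st ⟨X W (i, 0), hv⟩ = (i, 0) := (Xinj (hst2 ⟨X W (i, 0), hv⟩)).symm
    have n01 : ((i, 0) : II) ≠ (i, 1) := by simp
    obtain ⟨x, hx⟩ := hcon [(0, ⟨2, φ0, ![⟨X W (i, 1), hu⟩, ⟨X W (i, 0), hv⟩]⟩),
      (1, ⟨2, φ0, ![⟨X W (i, 1), hu⟩, ⟨X W (i, 0), hv⟩]⟩)] (1 / 2) (by norm_num)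
    obtain ⟨z, hz⟩ : ∃ z : Fin 1 → T.E, z = fun j => (x j).1 := ⟨_, rfl⟩
    have key : ∀ k : ℕ, |pval (str T) φ0 z (fun j => sq W i st k
        ((![⟨X W (i, 1), hu⟩, ⟨X W (i, 0), hv⟩] : Fin 2 → BB W) j)) -
        p 2 φ0 ![⟨X W (i, 1), hu⟩, ⟨X W (i, 0), hv⟩]| < 1 / 2 →
        T.norm2 (z 0 * X W (i, 0) * star (z 0) - X W (i, k + 1)) < 1 / 2 := by
      intro k hk
      rw [hp i _ _ rfl rfl, sub_zero] at hk
      have e : (fun j => sq W i st k
        ((![⟨X W (i, 1), hu⟩, ⟨X W (i, 0), hv⟩] : Fin 2 → BB W) j)) =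
          ![X W (i, k + 1), X W (i, 0)] := by
        funext j
        fin_cases j
        · show sq W i st k ⟨X W (i, 1), hu⟩ = X W (i, k + 1)
          rw [sq_eq, if_pos su]
        · show sq W i st k ⟨X W (i, 0), hv⟩ = X W (i, 0)
          rw [sq_eq, if_neg (by rw [sv]; exact n01), sv]
      have hk2 := lt_of_abs_lt hk
      have e3 := φ0_val T z (X W (i, k + 1)) (X W (i, 0))
      have e4 : pval (str T) φ0 z (fun j => sq W i st k
        ((![⟨X W (i, 1), hu⟩, ⟨X W (i, 0), hv⟩] : Fin 2 → BB W) j)) =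
          T.norm2 (z 0 * X W (i, 0) * star (z 0) - X W (i, k + 1)) :=
        (congrArg (fun z' : Fin 2 → T.E => pval (str T) φ0 z z') e).trans e3
      rw [← e4]
      exact hk2
    rw [← hz] at hx
    have k0 := key 0 (hx _ List.mem_cons_self)
    have k1 := key 1 (hx _ (List.mem_cons_of_mem _ List.mem_cons_self))
    have hne : ((i, 0 + 1) : II) ≠ (i, 1 + 1) := by simp
    have h5 := X_dist h hne
    have h6 := norm2_tri T (X W (i, 0 + 1)) (z 0 * X W (i, 0) * star (z 0)) (X W (i, 1 + 1))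
    rw [norm2_sub_comm T (X W (i, 0 + 1)) (z 0 * X W (i, 0) * star (z 0))] at h6
    linarith

include h in
theorem exists_row {A : Set T.E} (hAB : A ⊆ BB W) (hA : IsSepSet (str T) A) :
    ∃ i : ℝ, X W (i, 1) ∉ A := by
  obtain ⟨S, hSA, hSc, hd⟩ := hA
  have Xinj := X_inj h
  have hd' : ∀ x ∈ A, ∃ y : T.E, y ∈ S ∧ T.norm2 (x - y) < 1 := by
    intro x hx
    obtain ⟨y, hy, hxy⟩ := hd x hx 1 one_pos
    exact ⟨y, hy, by rw [← sub_eq T x y]; exact hxy⟩
  have hAS : A ⊆ S := by
    intro x hx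
    obtain ⟨y, hy, hxy⟩ := hd' x hx
    obtain ⟨s, _, rfl⟩ := hAB hx
    obtain ⟨t, _, rfl⟩ := hAB (hSA hy)
    by_cases hst : s = t
    · rw [hst]
      exact hy
    · have := X_dist h hst
      linarith
  have hc : A.Countable := hSc.mono hAS
  have hpre : ((fun i : ℝ => X W (i, 1)) ⁻¹' A).Countable := by
    refine hc.preimage ?_
    intro a b hab
    have := Xinj hab
    exact congrArg Prod.fst this
  by_contra hno
  push Not at hno
  have : ((fun i : ℝ => X W (i, 1)) ⁻¹' A) = Set.univ := by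
    ext i
    exact ⟨fun _ => trivial, fun _ => hno i⟩
  rw [this] at hpre
  exact not_countable (α := ℝ) (Set.countable_univ_iff.1 hpre)

end

theorem sys_of_hyp {R : TVN} (hR : R.IsHyperfinite) : ∃ W : PV ℕ → R.E, Sys R W := by
  obtain ⟨j, hc, hd⟩ := hR
  have hP := Pool.Agent.H504R3.pauliSys hc R.trAlg
  have hbf : ∀ v w : PV ℕ, bf v w = Pool.Agent.Helper436.SM.bf v w := fun v w => rfl
  refine ⟨Pool.Agent.H504R3.Ws j, hP.zero, fun v w => by rw [hbf]; exact hP.mul v w,
    fun v => by rw [hbf]; exact hP.star v, fun v hv => by rw [hP.trace, if_neg hv], ?_⟩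
  intro y ε hε
  obtain ⟨z, hz, h1⟩ := hd y ε hε
  obtain ⟨F, c, rfl⟩ := Pool.Agent.H504R3.adjoin_le hc z hz
  refine ⟨_, ?_, h1⟩
  exact Submodule.sum_mem _ fun t _ => Submodule.smul_mem _ _ (Submodule.subset_span ⟨t, rfl⟩)

theorem not_simple {R : Str} (hR : R.IsHyperfinite) : ¬ IsSimple R := by
  intro hs
  obtain ⟨R', rfl⟩ := exists_tvn R hR.1
  obtain ⟨W', hW'⟩ := sys_of_hyp (hyp_of R' hR)
  have h := RI.sys II
  obtain ⟨p, hp1, hp2⟩ := exists_type h
  obtain ⟨A, hAB, hA, hnd⟩ := hs (str (RI.TI II)) (isTVN _) (elemEq_of_sys h hW') (BB RI.WI) 1 1 p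
    hp1
  obtain ⟨i, hi⟩ := exists_row h hAB hA
  exact hnd (divides h hAB hi hp2)

end Pool.Agent.U108.NS
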